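import Mathlib
import Pool.Agent.Helper17.BSA.Final
import Pool.Agent.Helper37.OC.Laurent

set_option autoImplicit false

open AlgebraicGeometry CategoryTheory Polynomial TensorProduct Cardinal

namespace Pool.Agent.Helper17.BSA

open Pool.Agent.Helper19.BS Pool.Agent.Helper17.BSR Pool.Agent.Helper37.OC

theorem comp_series (k : Type) [Field k] :
    (algebraMap (PowerSeries k) (LaurentSeries k)).comp (algebraMap k (PowerSeries k)) =
      algebraMap k (LaurentSeries k) := by
  ext c : 1
  have h1 : algebraMap k (PowerSeries k) c = PowerSeries.C c := rfl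
  rw [RingHom.comp_apply, h1]
  show HahnSeries.ofPowerSeries ℤ k (PowerSeries.C c) = _
  rw [HahnSeries.ofPowerSeries_C]
  simp [HahnSeries.algebraMap_apply']

/-- `k` is algebraically closed in `k((t))`. -/
theorem constant_of_algebraic {k : Type} [Field k] (x : LaurentSeries k)
    (hx : IsAlgebraic k x) : ∃ c : k, algebraMap k (LaurentSeries k) c = x := by
  have h1 : IsIntegral (PowerSeries k) x := by
    obtain ⟨p, hp, hpx⟩ := hx.isIntegral
    refine ⟨p.map (algebraMap k (PowerSeries k)), hp.map _, ?_⟩
    rw [Polynomial.eval₂_map, comp_series]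
    exact hpx
  obtain ⟨y, rfl⟩ := (IsIntegrallyClosed.isIntegral_iff (R := PowerSeries k)).1 h1
  have hinj : Function.Injective (algebraMap (PowerSeries k) (LaurentSeries k)) :=
    IsFractionRing.injective _ _
  have hy : IsIntegral k y := by
    obtain ⟨p, hp, hpx⟩ := hx.isIntegral
    refine ⟨p, hp, ?_⟩
    apply hinj
    rw [Polynomial.hom_eval₂, comp_series, map_zero]
    exact hpx
  let c := PowerSeries.constantCoeff y
  let z : PowerSeries k := y - algebraMap k (PowerSeries k) c
  have hz : IsIntegral k z := hy.sub isIntegral_algebraMap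
  have hcz : PowerSeries.constantCoeff z = 0 := by
    simp [z, c]
  have hp := minpoly.aeval k z
  have h3 : (minpoly k z).eval 0 = 0 := by
    have h4 := congrArg (PowerSeries.constantCoeff) hp
    rw [map_zero, aeval_def, Polynomial.hom_eval₂, hcz] at h4
    have h5 : (PowerSeries.constantCoeff (R := k)).comp (algebraMap k (PowerSeries k)) =
        RingHom.id k := RingHom.ext fun a => by simp
    rw [h5] at h4
    exact h4
  have h6 : z = 0 := by
    by_contra hz0
    exact (minpoly.coeff_zero_ne_zero hz hz0) (by rw [Polynomial.coeff_zero_eq_eval_zero, h3])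
  refine ⟨c, ?_⟩
  have h7 : y = algebraMap k (PowerSeries k) c := sub_eq_zero.1 h6
  rw [h7, ← comp_series, RingHom.comp_apply]

/-- All classes over `k((t))` come from `k`. -/
def LaurentConstant (T : MotTheory) (k : Type) [Field k] (i w : ℤ) : Prop :=
  Function.Surjective (T.res (algebraMap k (LaurentSeries k)) i w)

instance (k : Type) [Field k] [CharZero k] : CharZero (LaurentSeries k) :=
  charZero_of_injective_algebraMap (algebraMap k (LaurentSeries k)).injective

variable {T : MotTheory} (hT : IsMotivic T) (hD : Descent T)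

include hT hD

theorem rigid_iff_laurent (k : Type) [Field k] [CharZero k] (i w : ℤ) :
    Rigid T i w ↔ LaurentConstant T k i w := by
  constructor
  · intro h u
    obtain ⟨a, ha⟩ := (field_of_rigid hT hD (LaurentSeries k) i w h).2 u
    have h1 : ∀ z : Qbar (LaurentSeries k), ∃ c : k, algebraMap k (LaurentSeries k) c = z := by
      intro z
      refine constant_of_algebraic _ ?_
      have h2 : IsAlgebraic ℚ (z : LaurentSeries k) := mem_algebraicClosure_iff.1 z.2
      exact IsAlgebraic.ringHom_of_comp_eq (algebraMap ℚ k) (RingHom.id _) h2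
        (algebraMap ℚ k).injective (Subsingleton.elim _ _)
    choose f hf using h1
    let ε : Qbar (LaurentSeries k) →+* k :=
      { toFun := f
        map_one' := (algebraMap k (LaurentSeries k)).injective (by rw [hf]; simp)
        map_mul' := fun x y => (algebraMap k (LaurentSeries k)).injective (by
          rw [map_mul, hf, hf, hf]; simp)
        map_zero' := (algebraMap k (LaurentSeries k)).injective (by rw [hf]; simp)
        map_add' := fun x y => (algebraMap k (LaurentSeries k)).injective (by
          rw [map_add, hf, hf, hf]; simp) }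
    refine ⟨T.res ε i w a, ?_⟩
    rw [← ha, ← res_comp' hT]
    have h2 : (algebraMap k (LaurentSeries k)).comp ε =
        algebraMap (Qbar (LaurentSeries k)) (LaurentSeries k) := RingHom.ext fun z => hf z
    rw [h2]
  · intro h
    let g : k →ₐ[ℚ] LaurentSeries k := (algebraMap k (LaurentSeries k)).toRatAlgHom
    let K₀ : IntermediateField ℚ (LaurentSeries k) := g.fieldRange
    let e : k →+* K₀ :=
      { toFun := fun c => ⟨g c, c, rfl⟩
        map_one' := Subtype.ext (by simp)
        map_mul' := fun _ _ => Subtype.ext (by simp)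
        map_zero' := Subtype.ext (by simp)
        map_add' := fun _ _ => Subtype.ext (by simp) }
    have he : Function.Surjective e := by
      rintro ⟨_, c, rfl⟩
      exact ⟨c, rfl⟩
    have hinf : ℵ₀ ≤ Algebra.trdeg K₀ (LaurentSeries k) := by
      obtain ⟨B, hB⟩ := exists_isTranscendenceBasis k (LaurentSeries k)
      have h1 : AlgebraicIndependent K₀ (RingHom.id (LaurentSeries k) ∘ ((↑) : B → LaurentSeries k)) :=
        hB.1.ringHom_of_comp_eq e (RingHom.id _) he Function.injective_id
          (RingHom.ext fun _ => rfl)
      have h2 := trdeg_laurent k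
      rw [← hB.cardinalMk_eq_trdeg] at h2
      exact h2.trans h1.cardinalMk_le_trdeg
    refine rigid_of_generated hT hD i w (.inl (ample_laurent k)) K₀ hinf ?_
    intro u
    obtain ⟨a, ha⟩ := h u
    refine ⟨T.res e i w a, 0, ?_⟩
    rw [map_zero, add_zero, ← ha, ← res_comp' hT]
    rfl

theorem weak_iff_laurent (k : Type) [Field k] [CharZero k] :
    ForAll (BeilinsonSoule T) ↔ ∀ w > 0, LaurentConstant T k (-1) w := by
  have hP : IsClass (fun X f => IsSmoothVar ℂ X f) :=
    ⟨fun X f h => h, inferInstance, inferInstance, inferInstance⟩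
  have h1 : ForAll (BeilinsonSoule T) ↔ ∀ w > 0, Rigid T (-1) w := (tfae_weak hT _ hP).out 1 2
  rw [h1]
  exact forall₂_congr fun w _ => rigid_iff_laurent hT hD k (-1) w

theorem strong_iff_laurent (k : Type) [Field k] [CharZero k] :
    ForAll (StrongBeilinsonSoule T) ↔ ∀ w > 0, LaurentConstant T k 0 w := by
  have hP : IsClass (fun X f => IsSmoothVar ℂ X f) :=
    ⟨fun X f h => h, inferInstance, inferInstance, inferInstance⟩
  have h1 : ForAll (StrongBeilinsonSoule T) ↔ ∀ w > 0, Rigid T 0 w := (tfae_strong hT _ hP).out 1 2
  rw [h1]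
  exact forall₂_congr fun w _ => rigid_iff_laurent hT hD k 0 w

/-- The criteria with formal Laurent series over the field `k`. -/
def LaurentDetects (T : MotTheory) (k : Type) [Field k] [CharZero k] : Prop :=
  (ForAll (BeilinsonSoule T) ↔ ∀ w > 0, LaurentConstant T k (-1) w) ∧
  (ForAll (StrongBeilinsonSoule T) ↔ ∀ w > 0, LaurentConstant T k 0 w) ∧
  ∀ i w : ℤ, (Rigid T i w ↔ LaurentConstant T k i w)

end Pool.Agent.Helper17.BSA
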