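import Mathlib
import Pool.Agent.Helper17.BSA.Final
import Pool.Agent.Helper17.BSA.Laurent

set_option autoImplicit false

open AlgebraicGeometry CategoryTheory Pool.Agent.Helper19.BS Pool.Agent.Helper17.BSR
  Pool.Agent.Helper17.BSA Pool.Agent.Helper37.OC

namespace Pool.Agent.Results.MP_d72c81_ag.AmpleFields

/-- The Beilinson-Soule vanishing for all smooth varieties over all fields of characteristic zero
is equivalent to a statement on the size of the groups `H^{-1}(Spec K, ℚ(w))` for a single ample
field `K` of infinite transcendence degree, for example any complete nontrivially normed field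
such as `ℝ`, `ℂ` or `ℚ_p`, or any real closed field of infinite transcendence degree. It is also
equivalent to the existence, for every weight `w`, of an ample field `K` and a subfield `K₀` with
infinite transcendence degree of `K` over `K₀` such that all classes over `K` are sums of classes
from `K₀` and classes from the algebraic numbers. The strong form is equivalent to the same
statements in degree zero. For a single field `k` of characteristic zero it is equivalent to
the surjectivity of `H^{-1}(Spec k, ℚ(w)) → H^{-1}(Spec k((t)), ℚ(w))`. More generally, in every degree and every weight these conditions are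
equivalent to rigidity (no new classes for extensions of algebraically closed fields) and imply
that all classes over every field of characteristic zero come from its algebraic numbers. -/
theorem result (T : MotTheory) (hT : IsMotivic T) (hD : Descent T) :
    (∀ P : ∀ X : Scheme.{0}, (X ⟶ Sp ℂ) → Prop, IsClass P →
      List.TFAE [ForClass P (BeilinsonSoule T), ForAll (BeilinsonSoule T),
        ∀ w > 0, SmallAmple T (-1) w, ∀ w > 0, GeneratedAmple T (-1) w] ∧
      List.TFAE [ForClass P (StrongBeilinsonSoule T), ForAll (StrongBeilinsonSoule T),
        ∀ w > 0, SmallAmple T 0 w, ∀ w > 0, GeneratedAmple T 0 w]) ∧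
    (∀ (K : Type) [Field K] [CharZero K], AmpleOrReal K → Large K → Detects T K) ∧
    (∀ (K : Type) [NontriviallyNormedField K] [CompleteSpace K] [CharZero K],
      AmpleOrReal K ∧ Large K ∧ Algebra.trdeg ℚ K = Cardinal.mk K) ∧
    (∀ (k : Type) [Field k] [CharZero k], LaurentDetects T k) ∧
    ∀ k w : ℤ,
      List.TFAE [Rigid T k w, FromAlgebraic T k w, SmallAmple T k w, GeneratedAmple T k w] :=
  ⟨fun P hP => ⟨weak_ample hT hD P hP, strong_ample hT hD P hP⟩,
    fun _ _ _ hK hL => detects hT hD hK hL,
    fun K _ _ _ => ⟨.inl (ample_of_complete K), large_of_complete K, trdeg_of_complete K⟩,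
    fun k _ _ => ⟨weak_iff_laurent hT hD k, strong_iff_laurent hT hD k,
      fun i w => rigid_iff_laurent hT hD k i w⟩,
    fun k w => tfae_ample hT hD k w⟩

end Pool.Agent.Results.MP_d72c81_ag.AmpleFields
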